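import Pool.Agent.Zagier.UniformFiveSix

/-!
# Zagier's conjecture in weight five for fields with an exceptional unit
-/

namespace Pool.Agent.Results.MP_f01982_nt.WeightFive

open Pool.Agent.Zagier NumberField

universe u

/-- Let `F` be a number field with exactly two archimedean places which contains an exceptional
unit: an algebraic integer `t`, not a primitive sixth root of unity, such that `t` and `1 - t` are
units. Then there are `y_1, y_2 ∈ ker δ_5` with `det 𝓛̃_5(σ_j(y_i)) ≠ 0`. -/
theorem result (F : Type u) [Field F] [NumberField F]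
    (hF : Fintype.card (InfinitePlace F) = 2)
    (h : ∃ t : 𝓞 F, IsUnit t ∧ IsUnit (1 - t) ∧ (t : F) ^ 2 - t + 1 ≠ 0) :
    RegulatorNonvanishing 5 F := by
  obtain ⟨t, ht0, ht1, ht2⟩ := h
  exact uniform_five F hF t ht0 ht1 ht2

end Pool.Agent.Results.MP_f01982_nt.WeightFive
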