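import Pool.Agent.Zagier.UniformSevenEight

/-!
# Zagier's conjecture in weight seven for fields with units `t, 1 - t, 1 - t + t²`
-/

namespace Pool.Agent.Results.MP_f01982_nt.WeightSeven

open Pool.Agent.Zagier NumberField

universe u

/-- Let `F` be a number field with exactly two archimedean places which contains an algebraic
integer `t` such that `t`, `1 - t` and `1 - t + t²` are units. Then there are
`y_1, …, y_d ∈ ker δ_7`, `d = d_7`, with `det 𝓛̃_7(σ_j(y_i)) ≠ 0`. -/
theorem result (F : Type u) [Field F] [NumberField F]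
    (hF : Fintype.card (InfinitePlace F) = 2)
    (h : ∃ t : 𝓞 F, IsUnit t ∧ IsUnit (1 - t) ∧ IsUnit (1 - t + t ^ 2)) :
    RegulatorNonvanishing 7 F := by
  obtain ⟨t, h0, h1, h2⟩ := h
  exact uniform_seven F hF t h0 h1 h2

end Pool.Agent.Results.MP_f01982_nt.WeightSeven
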