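import Pool.Agent.Zagier.UniformSix

/-!
# Zagier's conjecture in weight six for fields generated by an exceptional unit
-/

namespace Pool.Agent.Results.MP_f01982_nt.WeightSix

open Pool.Agent.Zagier NumberField

universe u

/-- Let `F = ℚ(t)` be a number field with exactly two archimedean places, where `t` is an
exceptional unit: an algebraic integer such that `t` and `1 - t` are units. Then there are
`y_1, …, y_d ∈ ker δ_6`, `d = d_6`, with `det 𝓛̃_6(σ_j(y_i)) ≠ 0`. -/
theorem result (F : Type u) [Field F] [NumberField F]
    (hF : Fintype.card (InfinitePlace F) = 2)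
    (h : ∃ t : 𝓞 F, IsUnit t ∧ IsUnit (1 - t) ∧ IntermediateField.adjoin ℚ {(t : F)} = ⊤) :
    RegulatorNonvanishing 6 F := by
  obtain ⟨t, ht0, ht1, htop⟩ := h
  exact uniform_six_gen F hF t ht0 ht1 htop

end Pool.Agent.Results.MP_f01982_nt.WeightSix
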